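import Pool.Agent.helper37.ND.Spec
import Pool.Agent.helper23.LZ.ZL5

/-!
# Row nd:GST (MP_baa4d7_al): the star construction
-/

set_option autoImplicit false

namespace Pool.Agent.ND

open Pool.Agent.helper58.DC Pool.Agent.DI Pool.Agent.GR Pool.Agent.OB Pool.Agent.DR Pool.Agent.FI Pool.Agent.FI3 Pool.Agent.FI4 Pool.Agent.FI4I Pool.Agent.LE Pool.Agent.L5 Pool.Agent.NAB

/-- a rational number which is integral at all primes is an integer -/
theorem GST_int {p : ℕ} {M : Ideal (integralClosure ℤ ℂ)} (hM : Setup p M) {x : ℂ} {R : ℚ} (hx : x = (R : ℂ)) (h1 : IntAt M x)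
    (h2 : ∀ (q : ℕ) (M' : Ideal (integralClosure ℤ ℂ)), Setup q M' → q ≠ p → IntAt M' x) : ∃ n : ℤ, x = (n : ℂ) := by
  have hnum : (R : ℂ) * (R.den : ℂ) = (R.num : ℂ) := by
    have h1 : R * (R.den : ℚ) = (R.num : ℚ) := Rat.mul_den_eq_num R
    have h2 : ((R * (R.den : ℚ) : ℚ) : ℂ) = ((R.num : ℚ) : ℂ) := by rw [h1]
    rw [Rat.cast_mul, Rat.cast_natCast, Rat.cast_intCast] at h2
    exact h2
  rw [hx] at h1 h2
  have hden : R.den = 1 := by
    by_contra hne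
    obtain ⟨q, hq, hqd⟩ := Nat.exists_prime_and_dvd hne
    have hcop : ¬ q ∣ R.num.natAbs := fun h => hq.one_lt.ne' (Nat.eq_one_of_dvd_coprimes R.reduced h hqd)
    by_cases hqp : q = p
    · rw [hqp] at hqd hcop
      have h3 : InM M (R.num : ℂ) := by
        rw [← hnum]
        exact InM.mul_left hM h1 ((InM.natCast hM _).2 hqd)
      exact hcop (ZL5_dvd hM h3)
    · obtain ⟨M', hM'⟩ := ZL5_setup q hq
      have h3 : InM M' (R.num : ℂ) := by
        rw [← hnum]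
        exact InM.mul_left hM' (h2 q M' hM' hqp) ((InM.natCast hM' _).2 hqd)
      exact hcop (ZL5_dvd hM' h3)
  refine ⟨R.num, ?_⟩
  rw [hx, ← hnum, hden, Nat.cast_one, mul_one]

theorem GST_sq {α : Type} [DecidableEq α] (s : Finset α) (n : α → ℤ) (h : ∑ i ∈ s, n i ^ 2 = 1) :
    ∃ i ∈ s, (n i = 1 ∨ n i = -1) ∧ ∀ j ∈ s, j ≠ i → n j = 0 := by
  obtain ⟨i, hi, hne⟩ : ∃ i ∈ s, n i ≠ 0 := by
    by_contra hcon
    push Not at hcon
    rw [Finset.sum_eq_zero fun i hi => by rw [hcon i hi]; norm_num] at h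
    exact zero_ne_one h
  rw [← Finset.add_sum_erase s _ hi] at h
  have h1 : 1 ≤ n i ^ 2 := by
    have := sq_nonneg (n i)
    have h2 : n i ^ 2 ≠ 0 := pow_ne_zero 2 hne
    omega
  have h2 : 0 ≤ ∑ j ∈ s.erase i, n j ^ 2 := Finset.sum_nonneg fun j _ => sq_nonneg _
  have h3 : ∑ j ∈ s.erase i, n j ^ 2 = 0 := by omega
  have h4 : n i ^ 2 = 1 := by omega
  refine ⟨i, hi, mul_self_eq_one_iff.1 (by rw [← sq]; exact h4), fun j hj hji => ?_⟩
  have h5 := (Finset.sum_eq_zero_iff_of_nonneg fun j _ => sq_nonneg (n j)).1 h3 j (Finset.mem_erase.2 ⟨hji, hj⟩)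
  exact pow_eq_zero_iff (two_ne_zero) |>.1 h5

theorem GST (hGIM : GIM_stmt) (hGIL : GIL_stmt) (hGRT : GRT_stmt) (hZLM : ZLM_stmt) (hB2 : B2_stmt) (hEXP : EXP_stmt) (hQEI : QEI_stmt)
    (_hFBC : FBC_stmt) (hNUB : NUB_stmt) (_hTRN : TRN_stmt) : GST_stmt := by
  classical
  intro p e m t M hS G _ _ χ Z z x hZD θ hθ ν
  have := Fintype.ofFinite G
  obtain ⟨zlm1, -, zlm3, -, ⟨zlm5, -⟩, -, -⟩ := hZLM p e t hS.pr G hZD.tx Z ν
  obtain ⟨C, hC⟩ : ∃ C : Subgroup G, C = cz Z := ⟨_, rfl⟩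
  obtain ⟨F, hF⟩ : ∃ F : G → ℂ, F = st Z t ν θ := ⟨_, rfl⟩
  have hθC : θ ∈ IrrOn C := by
    rw [hC]
    exact hθ.1
  have hθ0 := (hB2 G C).2 θ hθC
  have hcard : (Nat.card C : ℂ) ≠ 0 := by exact_mod_cast Nat.card_pos.ne'
  have hFval : ∀ g, F g = lam Z t ν g * θ g := fun g => by rw [hF]; rfl
  have hF0 : ∀ g, g ∉ C → F g = 0 := fun g hg => by rw [hFval, hθ0.2.2.2.1 g hg, mul_zero]
  have hFc : ∀ h ∈ C, ∀ g, F (h * g * h⁻¹) = F g := fun h hh g => by
    rw [hFval, hFval, hθ0.2.1 g h hh, zlm3 h (by rw [← hC]; exact hh)]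
  have hfin : (IrrOn C).Finite := (hB2 G C).1
  -- multiplicities are integers
  have hint : ∀ θ' ∈ IrrOn C, ∃ n : ℤ, mt C F θ' = (n : ℂ) := by
    intro θ' hθ'
    rw [hC] at hθ' ⊢
    obtain ⟨r, hr⟩ := hGRT p e t hS.pr G hZD.tx Z ν θ hθ.1 θ' hθ'
    rw [hF]
    exact GST_int hS hr (hGIM p e m t M hS G χ Z z x hZD θ hθ ν θ' hθ')
      fun q M' hM' hq => hGIL p e t hS.pr q M' hM' hq G hZD.tx Z ν θ hθ.1 θ' hθ'
  have hmt : ∀ ψ : G → ℂ, (∀ g, g ∉ C → ψ g = 0) → ∀ φ : G → ℂ, mt C ψ φ * Nat.card C = ∑ g : G, ψ g * φ g⁻¹ := by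
    intro ψ hψ φ
    unfold FI.mt
    rw [div_mul_cancel₀ _ hcard, finsum_mem_def, finsum_eq_sum_of_fintype]
    refine Finset.sum_congr rfl fun g _ => ?_
    by_cases hg : g ∈ C
    · rw [Set.indicator_of_mem (show g ∈ (C : Set G) from hg)]
    · rw [Set.indicator_of_notMem (show g ∉ (C : Set G) from hg), hψ g hg, zero_mul]
  have horth : ∀ ψ ∈ IrrOn C, ∀ φ ∈ IrrOn C, ∑ g : G, ψ g * φ g⁻¹ = if ψ = φ then (Nat.card C : ℂ) else 0 := by
    intro ψ hψ φ hφ
    rw [← finsum_eq_sum_of_fintype, ((hB2 G C).2 ψ hψ).2.2.2.2 φ hφ]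
    by_cases h : ψ = φ
    · rw [if_pos h, if_pos h]
    · rw [if_neg h, if_neg h]
  -- the expansion
  have hexp : ∀ g, F g = ∑ φ ∈ hfin.toFinset, mt C F φ * φ g := by
    obtain ⟨w, hw⟩ : ∃ w : G → ℂ, w = fun g => F g⁻¹ - ∑ φ ∈ hfin.toFinset, mt C F φ * φ g⁻¹ := ⟨_, rfl⟩
    have hwCF : CF C w := by
      refine ⟨fun h hh g => ?_, fun g hg => ?_⟩
      · rw [hw]
        show F (h * g * h⁻¹)⁻¹ - ∑ φ ∈ hfin.toFinset, mt C F φ * φ (h * g * h⁻¹)⁻¹ = F g⁻¹ - ∑ φ ∈ hfin.toFinset, mt C F φ * φ g⁻¹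
        have h1 : (h * g * h⁻¹)⁻¹ = h * g⁻¹ * h⁻¹ := by group
        rw [h1, hFc h hh]
        congr 1
        refine Finset.sum_congr rfl fun φ hφ => ?_
        rw [Set.Finite.mem_toFinset] at hφ
        rw [((hB2 G C).2 φ hφ).2.1 _ h hh]
      · have h1 : g⁻¹ ∉ C := fun h => hg (by have := C.inv_mem h; rwa [inv_inv] at this)
        rw [hw]
        show F g⁻¹ - ∑ φ ∈ hfin.toFinset, mt C F φ * φ g⁻¹ = 0
        rw [hF0 _ h1, Finset.sum_eq_zero, sub_zero]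
        intro φ hφ
        rw [Set.Finite.mem_toFinset] at hφ
        rw [((hB2 G C).2 φ hφ).2.2.2.1 _ h1, mul_zero]
    have hw0 : w = 0 := by
      refine hEXP G C w hwCF fun ψ hψ => ?_
      unfold cc
      rw [finsum_eq_sum_of_fintype]
      have h1 : ∑ g : G, w g * ψ g = 0 := by
        have h2 : ∑ g : G, w g * ψ g = ∑ g : G, F g⁻¹ * ψ g - ∑ φ ∈ hfin.toFinset, mt C F φ * ∑ g : G, φ g⁻¹ * ψ g := by
          rw [hw]
          simp only [sub_mul, Finset.sum_sub_distrib, Finset.sum_mul, Finset.mul_sum]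
          congr 1
          rw [Finset.sum_comm]
          refine Finset.sum_congr rfl fun φ _ => Finset.sum_congr rfl fun g _ => ?_
          ring
        have h3 : ∑ g : G, F g⁻¹ * ψ g = mt C F ψ * Nat.card C := by
          rw [hmt F hF0 ψ, ← Equiv.sum_comp (Equiv.inv G)]
          refine Finset.sum_congr rfl fun g _ => ?_
          show F g⁻¹⁻¹ * ψ g⁻¹ = F g * ψ g⁻¹
          rw [inv_inv]
        have h4 : ∑ φ ∈ hfin.toFinset, mt C F φ * ∑ g : G, φ g⁻¹ * ψ g = mt C F ψ * Nat.card C := by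
          rw [Finset.sum_eq_single_of_mem ψ (by rw [Set.Finite.mem_toFinset]; exact hψ)]
          · congr 1
            have h5 := horth ψ hψ ψ hψ
            rw [if_pos rfl] at h5
            rw [← h5]
            refine Finset.sum_congr rfl fun g _ => mul_comm _ _
          · intro φ hφ hne
            rw [Set.Finite.mem_toFinset] at hφ
            have h5 := horth ψ hψ φ hφ
            rw [if_neg fun h => hne h.symm] at h5
            have h6 : ∑ g : G, φ g⁻¹ * ψ g = 0 := by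
              rw [← h5]
              refine Finset.sum_congr rfl fun g _ => mul_comm _ _
            rw [h6, mul_zero]
        rw [h2, h3, h4, sub_self]
      rw [h1, zero_div]
    intro g
    have h1 := congrFun hw0 g⁻¹
    rw [hw] at h1
    have h2 : F g⁻¹⁻¹ - ∑ φ ∈ hfin.toFinset, mt C F φ * φ g⁻¹⁻¹ = 0 := h1
    rw [inv_inv] at h2
    exact sub_eq_zero.1 h2
  -- the norm
  have hnorm : ∑ φ ∈ hfin.toFinset, mt C F φ ^ 2 = 1 := by
    have h1 : ∑ g : G, F g * F g⁻¹ = Nat.card C := by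
      have h2 := horth θ hθC θ hθC
      rw [if_pos rfl] at h2
      rw [← h2]
      refine Finset.sum_congr rfl fun g _ => ?_
      rw [hFval, hFval]
      have h3 := (zlm1 g).2
      calc lam Z t ν g * θ g * (lam Z t ν g⁻¹ * θ g⁻¹) = (lam Z t ν g * lam Z t ν g⁻¹) * (θ g * θ g⁻¹) := by ring
        _ = θ g * θ g⁻¹ := by rw [h3, one_mul]
    have h2 : ∑ g : G, F g * F g⁻¹ = (∑ φ ∈ hfin.toFinset, mt C F φ ^ 2) * Nat.card C := by
      have h3 : ∀ g : G, F g * F g⁻¹ = ∑ φ ∈ hfin.toFinset, mt C F φ * (F g * φ g⁻¹) := by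
        intro g
        rw [hexp g⁻¹, Finset.mul_sum]
        refine Finset.sum_congr rfl fun φ _ => ?_
        ring
      rw [Finset.sum_congr rfl fun g _ => h3 g, Finset.sum_comm, Finset.sum_mul]
      refine Finset.sum_congr rfl fun φ _ => ?_
      rw [← Finset.mul_sum, ← hmt F hF0 φ]
      ring
    rw [h1] at h2
    exact (mul_right_cancel₀ hcard (by rw [one_mul]; exact h2)).symm
  choose! n hn using hint
  have hsq : ∑ φ ∈ hfin.toFinset, n φ ^ 2 = 1 := by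
    have h1 : ((∑ φ ∈ hfin.toFinset, n φ ^ 2 : ℤ) : ℂ) = 1 := by
      rw [← hnorm]
      push_cast
      refine Finset.sum_congr rfl fun φ hφ => ?_
      rw [Set.Finite.mem_toFinset] at hφ
      rw [hn φ hφ]
    exact_mod_cast h1
  obtain ⟨φ, hφ, hφ1, hφ2⟩ := GST_sq _ _ hsq
  have hFφ : ∀ g, F g = (n φ : ℂ) * φ g := by
    intro g
    rw [hexp g, Finset.sum_eq_single_of_mem φ hφ]
    · rw [hn φ (by rwa [Set.Finite.mem_toFinset] at hφ)]
    · intro j hj hne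
      rw [hn j (by rwa [Set.Finite.mem_toFinset] at hj), hφ2 j hj hne, Int.cast_zero, zero_mul]
  rw [Set.Finite.mem_toFinset] at hφ
  have hone : PReg p (1 : G) := by
    unfold PReg
    rw [orderOf_one]
    intro h
    exact hS.pr.one_lt.ne' (Nat.dvd_one.1 h)
  have hn1 : n φ = 1 := by
    rcases hφ1 with h | h
    · exact h
    · exfalso
      have h1 := hFφ 1
      rw [h, hFval, zlm5 1 hone, one_mul] at h1
      obtain ⟨a, ha, ha', -⟩ := hθ0.1
      obtain ⟨b, hb, hb', -⟩ := ((hB2 G C).2 φ hφ).1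
      rw [ha', hb'] at h1
      have h2 : (a : ℂ) + b = 0 := by
        rw [h1]
        push_cast
        ring
      have h3 : a + b = 0 := by exact_mod_cast h2
      omega
  have hFeq : F = φ := funext fun g => by rw [hFφ g, hn1, Int.cast_one, one_mul]
  have hFI : F ∈ IrrOn C := by
    rw [hFeq]
    exact hφ
  -- the same block
  have hSB : SB M C F θ := by
    obtain ⟨-, q2, -, q4⟩ := hQEI p M hS G C (Bl M C θ) (Q1_BC M _ 1 θ).1
    by_contra hcon
    have h1 := (q2 θ ⟨hθC, SB.refl _ _⟩ F hFI fun h => hcon h.2).2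
    obtain ⟨r, hr, hr'⟩ := q4 θ hθC
    have h2 : EE p C F θ = EE p C θ θ := by
      unfold EE
      congr 1
      refine finsum_mem_congr rfl fun v hv => ?_
      rw [hFval, zlm5 v hv.2, one_mul]
    rw [h2, hr'] at h1
    exact hr.ne' (by exact_mod_cast h1)
  rw [← hF, ← hC]
  refine ⟨⟨hFI, ?_, ?_⟩, hSB⟩
  · exact (TRNb le_top hF0 hθ0.2.2.2.1 hSB).trans hθ.2.1
  · obtain ⟨z', x', hu, hz'⟩ := hθ.2.2
    rw [← hC] at hu
    exact ⟨z', x', (hNUB p e m M hS G C θ z' x' hu).1 F hSB.symm, hz'⟩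

end Pool.Agent.ND
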